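import Pool.Agent.Helper70.SK.Stmts
import Pool.Agent.Helper70.SK.Lib

/-! Sticky Kakeya sets, module REL: the displacement of the tubes of two levels. -/

namespace Pool.Agent.Helper70.SK

open Finset Pool.Agent.Helper70.DK

theorem rel_cast (a : ℤ) (K B e : ℕ) (h : |(a : ℝ)| ≤ (K : ℝ) * (B : ℝ) ^ e) :
    |a| ≤ (K : ℤ) * (B : ℤ) ^ e := by
  exact_mod_cast h

theorem rel_cell (y y' s : ℤ) (hs : 0 < s) (h : y / s = y' / s) : |y - y'| ≤ s := by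
  have h1 := Int.emod_add_mul_ediv y s
  have h2 := Int.emod_add_mul_ediv y' s
  rw [h] at h1
  have h3 := Int.emod_nonneg y hs.ne'
  have h4 := Int.emod_nonneg y' hs.ne'
  have h5 := Int.emod_lt_of_pos y hs
  have h6 := Int.emod_lt_of_pos y' hs
  rw [abs_le]
  constructor <;> linarith

/-- corner of the cell of level `j` with label `T` -/
def rel_u {m q : ℕ} (σ : Sy m q) (B j : ℕ) (T : Fin m → ℤ) : Fin m → ℤ :=
  fun c => (B : ℤ) ^ (σ.n - j) * T c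

/-- corner of the cell of level `i` containing the cell of level `j` with label `T` -/
def rel_v {m q : ℕ} (σ : Sy m q) (B i j : ℕ) (T : Fin m → ℤ) : Fin m → ℤ :=
  fun c => (B : ℤ) ^ (σ.n - i) * cl B (j - i) T c

/-- bracket -/
noncomputable def rel_b {m q : ℕ} (σ : Sy m q) (B i j γ : ℕ) (T : Fin m → ℤ) : Fin q → ℤ :=
  fun r => σ.Y B γ (rel_u σ B j T) r - σ.Y B γ (rel_v σ B i j T) r

theorem rel_co {m q : ℕ} (σ : Sy m q) (B i j : ℕ) (x : Fin m → ℤ)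
    (h : σ.tr B i x = cl B (j - i) (σ.tr B j x)) :
    σ.co B j x = rel_u σ B j (σ.tr B j x) ∧ σ.co B i x = rel_v σ B i j (σ.tr B j x) := by
  refine ⟨rfl, ?_⟩
  funext c
  unfold Sy.co rel_v
  rw [h]

theorem rel_fiber {Ω : Type} {β : Type} {q : ℕ} (S : Finset Ω) (B a b : ℕ) (hB : 2 ≤ B)
    (R : Ω → Fin q → ℤ) (G : Ω → β) (p : β → Fin q → ℤ) (hp : ∀ ω, p (G ω) = cl B (a + b) (R ω)) :
    cent S (fun ω => cl B b (R ω)) G ≤ q * (a : ℝ) * Real.log B := by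
  classical
  have hB0 : (0 : ℤ) < (B : ℤ) := by exact_mod_cast (by omega : 0 < B)
  have h := cent_card S (fun ω => cl B b (R ω)) G ((B ^ a) ^ q) (by
    intro c
    refine ⟨Fintype.piFinset (fun r => Finset.Ico ((B : ℤ) ^ a * p c r) ((B : ℤ) ^ a * p c r + (B : ℤ) ^ a)), ?_, ?_⟩
    · rw [Fintype.card_piFinset]
      simp only [Int.card_Ico]
      rw [Finset.prod_congr rfl (g := fun _ => B ^ a)]
      · simp
      · intro r _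
        have : (B : ℤ) ^ a * p c r + (B : ℤ) ^ a - (B : ℤ) ^ a * p c r = ((B ^ a : ℕ) : ℤ) := by
          push_cast; ring
        rw [this, Int.toNat_natCast]
    · intro ω _ hc
      rw [Fintype.mem_piFinset]
      intro r
      have e : p c r = (R ω r) / (B : ℤ) ^ (a + b) := by
        rw [← hc, hp]
        rfl
      have hba : (0 : ℤ) < (B : ℤ) ^ a := pow_pos hB0 a
      have hbb : (0 : ℤ) < (B : ℤ) ^ b := pow_pos hB0 b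
      have e2 : p c r = (R ω r / (B : ℤ) ^ b) / (B : ℤ) ^ a := by
        rw [e, pow_add, mul_comm, Int.ediv_ediv_of_nonneg hbb.le]
      have h1 := Int.emod_add_mul_ediv (R ω r / (B : ℤ) ^ b) ((B : ℤ) ^ a)
      have h3 := Int.emod_nonneg (R ω r / (B : ℤ) ^ b) hba.ne'
      have h5 := Int.emod_lt_of_pos (R ω r / (B : ℤ) ^ b) hba
      rw [← e2] at h1
      rw [Finset.mem_Ico]
      show (B : ℤ) ^ a * p c r ≤ R ω r / (B : ℤ) ^ b ∧ R ω r / (B : ℤ) ^ b < (B : ℤ) ^ a * p c r + (B : ℤ) ^ a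
      constructor <;> linarith)
  refine h.trans (le_of_eq ?_)
  push_cast
  rw [Real.log_pow, Real.log_pow]
  ring

/-- the facts on a pair of points -/
theorem rel_facts (h1 : ST_GEO) (h3 : ST_PARA) (m q B : ℕ) (R κ D C : ℝ) (hB : 2 ≤ B) (hR : 0 ≤ R)
    (hD : 0 ≤ D) (M0 c' : ℕ) (hM0 : m * D * (R + 1) ≤ (M0 : ℝ)) (hc' : 2 * (m * (R + 1 + D)) ≤ (2 : ℝ) ^ c')
    (σ : Sy m q) (Q k K g d i l1 : ℕ) (rep : ℕ → ℕ) (hσ : σ.Ok B R κ D C) (hrep : σ.Rep B Q rep)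
    (hki : k ≤ i) (hil : i ≤ l1) (hlK : l1 + g + d ≤ K) (hKn : K ≤ σ.n) (hQ : Q ≤ σ.n)
    (hc : l1 + g + d - i + c' ≤ Q) (ω : PS m q) (hω : ω ∈ σ.Pa B) :
    (∀ r, |σ.Rd B l1 ω.1.1.1 ω.1.1.2 (σ.x1 B k K ω) r| ≤ ((2 * M0 + 1 : ℕ) : ℤ) * (B : ℤ) ^ σ.e l1) ∧
    (∀ r, |σ.Rd B l1 ω.1.1.1 ω.1.1.2 (σ.x1 B k K ω) r - σ.Rd B i ω.1.1.1 ω.1.1.2 (σ.x1 B k K ω) r -
      (rel_b σ B i l1 (rep ω.1.1.1) (σ.tr B l1 (σ.x1 B k K ω)) r -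
        rel_b σ B i l1 (rep ω.1.1.1) (σ.tr B l1 ω.1.1.2) r)| ≤ ((1 : ℕ) : ℤ) * (B : ℤ) ^ σ.e (l1 + g + d)) ∧
    (∀ r, |σ.Rd B i ω.1.1.1 ω.1.1.2 (σ.x1 B k K ω) r -
      (rel_b σ B i l1 (rep ω.1.1.1) (σ.tr B l1 ω.1.1.2) r -
        rel_b σ B i l1 (rep ω.1.1.1) (σ.tr B l1 (σ.x1 B k K ω)) r)| ≤
        ((2 * M0 + 2 : ℕ) : ℤ) * (B : ℤ) ^ σ.e l1) ∧
    (∀ r, |σ.yc B i (rep ω.1.1.1) ω.1.1.2 r - rel_b σ B i l1 (rep ω.1.1.1) (σ.tr B l1 ω.1.1.2) r| ≤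
        ((M0 : ℕ) : ℤ) * (B : ℤ) ^ σ.e l1) := by
  obtain ⟨g1, g2, g3, g4⟩ := h1 m q B R κ D C σ hB hR hD hσ
  obtain ⟨p1, -⟩ := h3 m q B k K σ
  obtain ⟨hx1, hff⟩ := p1 ω hω
  have hmem : (ω.1.1.1 ∈ σ.G ∧ ω.1.1.2 ∈ σ.X B) := by
    have a1 := (Finset.mem_product.1 hω).1
    have a2 := (Finset.mem_product.1 a1).1
    exact Finset.mem_product.1 a2
  obtain ⟨hγ, hx⟩ := hmem
  obtain ⟨γ, hγe⟩ : ∃ γ, γ = ω.1.1.1 := ⟨_, rfl⟩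
  obtain ⟨x, hxe⟩ : ∃ x, x = ω.1.1.2 := ⟨_, rfl⟩
  obtain ⟨y, hye⟩ : ∃ y, y = σ.x1 B k K ω := ⟨_, rfl⟩
  have hffK : ∀ r, σ.Y B γ y r / (B : ℤ) ^ σ.e K = σ.Y B γ x r / (B : ℤ) ^ σ.e K := by
    intro r
    have a1 := (Prod.ext_iff.1 (Prod.ext_iff.1 hff).2).2
    have a2 := congrFun a1 r
    rw [hγe, hxe, hye]
    exact a2
  rw [← hγe] at hγ
  rw [← hxe] at hx
  rw [← hye] at hx1
  rw [← hγe, ← hxe, ← hye]
  clear hff hω p1 h1 h3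
  have hln : l1 ≤ σ.n := by omega
  have hin : i ≤ σ.n := by omega
  have hl2n : l1 + g + d ≤ σ.n := by omega
  have hcc : rep γ ∈ σ.G := (hrep γ hγ).1
  have hB0 : (0 : ℝ) < (B : ℝ) := by exact_mod_cast (by omega : 0 < B)
  have hB1 : (1 : ℝ) ≤ (B : ℝ) := by exact_mod_cast (by omega : 1 ≤ B)
  have hB0' : (0 : ℤ) < (B : ℤ) := by exact_mod_cast (by omega : 0 < B)
  -- same label of level i
  have htr : ∀ z ∈ σ.X B, σ.tr B i (σ.co B l1 z) = σ.tr B i (σ.co B i z) := by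
    intro z hz
    rw [g4 i l1 hil hln, (g3 l1 hln z hz).2.1, (g3 i hin z hz).2.1, ← g4 i l1 hil hln]
  have hco : ∀ z, σ.co B l1 z = rel_u σ B l1 (σ.tr B l1 z) ∧ σ.co B i z = rel_v σ B i l1 (σ.tr B l1 z) :=
    fun z => rel_co σ B i l1 z (g4 i l1 hil hln z)
  -- the error of a bracket
  have hbr : ∀ z ∈ σ.X B, ∀ r, |((σ.Y B γ (σ.co B l1 z) r : ℝ) - (σ.Y B γ (σ.co B i z) r : ℝ)) -
      ((rel_b σ B i l1 (rep γ) (σ.tr B l1 z) r : ℤ) : ℝ)| ≤ (B : ℝ) ^ σ.e (l1 + g + d) / 2 := by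
    intro z hz r
    have a1 := g2 Q rep hQ hrep γ hγ i hin (σ.co B l1 z) (g3 l1 hln z hz).1 (σ.co B i z) (g3 i hin z hz).1
      (htr z hz) r
    have a2 : ((rel_b σ B i l1 (rep γ) (σ.tr B l1 z) r : ℤ) : ℝ) =
        (σ.Y B (rep γ) (σ.co B l1 z) r : ℝ) - (σ.Y B (rep γ) (σ.co B i z) r : ℝ) := by
      unfold rel_b
      rw [← (hco z).1, ← (hco z).2]
      push_cast
      ring
    rw [a2]
    refine a1.trans ?_
    have e1 : σ.e i = σ.e (l1 + g + d) + (l1 + g + d - i) := by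
      unfold Sy.e
      omega
    rw [e1, pow_add, div_le_iff₀ (pow_pos hB0 Q)]
    have e2 : (B : ℝ) ^ (l1 + g + d - i) * (B : ℝ) ^ c' ≤ (B : ℝ) ^ Q := by
      rw [← pow_add]
      exact pow_le_pow_right₀ hB1 hc
    have e3 : (2 : ℝ) ^ c' ≤ (B : ℝ) ^ c' := pow_le_pow_left₀ (by norm_num) (by exact_mod_cast hB) c'
    have e4 : 2 * (m * (R + 1 + D)) ≤ (B : ℝ) ^ c' := hc'.trans e3
    have e5 : 0 ≤ (B : ℝ) ^ (l1 + g + d - i) := by positivity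
    have e6 : 0 ≤ (B : ℝ) ^ σ.e (l1 + g + d) := by positivity
    have e7 : (B : ℝ) ^ (l1 + g + d - i) * (2 * (m * (R + 1 + D))) ≤ (B : ℝ) ^ Q :=
      (mul_le_mul_of_nonneg_left e4 e5).trans e2
    have e8 := mul_le_mul_of_nonneg_left e7 e6
    nlinarith [e8]
  -- the displacement at level l1
  have hle1 : ∀ z ∈ σ.X B, ∀ c ∈ σ.G, ∀ r, |(σ.Y B c z r : ℝ) - (σ.Y B c (σ.co B l1 z) r : ℝ)| ≤
      (M0 : ℝ) * (B : ℝ) ^ σ.e l1 := by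
    intro z hz c hcG r
    have a1 := g1 c hcG l1 hln z hz (σ.co B l1 z) (g3 l1 hln z hz).1 (g3 l1 hln z hz).2.1.symm r
    exact a1.trans (mul_le_mul_of_nonneg_right hM0 (by positivity))
  have hmid : ∀ r, |(σ.Y B γ y r : ℝ) - (σ.Y B γ x r : ℝ)| ≤ (B : ℝ) ^ σ.e l1 := by
    intro r
    have a1 := rel_cell _ _ _ (pow_pos hB0' (σ.e K)) (hffK r)
    have a2 : |(σ.Y B γ y r : ℝ) - (σ.Y B γ x r : ℝ)| ≤ (B : ℝ) ^ σ.e K := by exact_mod_cast a1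
    refine a2.trans (pow_le_pow_right₀ hB1 ?_)
    unfold Sy.e
    omega
  have hpw : (B : ℝ) ^ σ.e (l1 + g + d) ≤ (B : ℝ) ^ σ.e l1 := by
    refine pow_le_pow_right₀ hB1 ?_
    unfold Sy.e
    omega
  have F1 : ∀ r, |((σ.Rd B l1 γ x y r : ℤ) : ℝ)| ≤ (2 * (M0 : ℝ) + 1) * (B : ℝ) ^ σ.e l1 := by
    intro r
    have a1 := abs_le.1 (hle1 x hx γ hγ r)
    have a2 := abs_le.1 (hle1 y hx1 γ hγ r)
    have a3 := abs_le.1 (hmid r)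
    have e : ((σ.Rd B l1 γ x y r : ℤ) : ℝ) = (σ.Y B γ (σ.co B l1 y) r : ℝ) - (σ.Y B γ (σ.co B l1 x) r : ℝ) := by
      unfold Sy.Rd
      push_cast
      ring
    rw [e, abs_le]
    constructor <;> linarith [a1.1, a1.2, a2.1, a2.2, a3.1, a3.2]
  have F2 : ∀ r, |((σ.Rd B l1 γ x y r : ℤ) : ℝ) - ((σ.Rd B i γ x y r : ℤ) : ℝ) -
      (((rel_b σ B i l1 (rep γ) (σ.tr B l1 y) r : ℤ) : ℝ) - ((rel_b σ B i l1 (rep γ) (σ.tr B l1 x) r : ℤ) : ℝ))| ≤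
      (B : ℝ) ^ σ.e (l1 + g + d) := by
    intro r
    have a1 := abs_le.1 (hbr x hx r)
    have a2 := abs_le.1 (hbr y hx1 r)
    have e : ((σ.Rd B l1 γ x y r : ℤ) : ℝ) = (σ.Y B γ (σ.co B l1 y) r : ℝ) - (σ.Y B γ (σ.co B l1 x) r : ℝ) := by
      unfold Sy.Rd
      push_cast
      ring
    have e' : ((σ.Rd B i γ x y r : ℤ) : ℝ) = (σ.Y B γ (σ.co B i y) r : ℝ) - (σ.Y B γ (σ.co B i x) r : ℝ) := by
      unfold Sy.Rd
      push_cast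
      ring
    rw [e, e', abs_le]
    constructor <;> linarith [a1.1, a1.2, a2.1, a2.2]
  refine ⟨?_, ?_, ?_, ?_⟩
  · intro r
    refine rel_cast _ _ _ _ ?_
    have := F1 r
    push_cast
    exact this
  · intro r
    refine rel_cast _ _ _ _ ?_
    have := F2 r
    push_cast
    linarith
  · intro r
    refine rel_cast _ _ _ _ ?_
    have b1 := abs_le.1 (F1 r)
    have b2 := abs_le.1 (F2 r)
    push_cast
    rw [abs_le]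
    constructor <;> linarith [b1.1, b1.2, b2.1, b2.2]
  · intro r
    refine rel_cast _ _ _ _ ?_
    have b1 := hle1 x hx (rep γ) hcc r
    have e : ((σ.yc B i (rep γ) x r - rel_b σ B i l1 (rep γ) (σ.tr B l1 x) r : ℤ) : ℝ) =
        (σ.Y B (rep γ) x r : ℝ) - (σ.Y B (rep γ) (σ.co B l1 x) r : ℝ) := by
      unfold Sy.yc rel_b
      rw [← (hco x).1, ← (hco x).2]
      push_cast
      ring
    rw [e]
    exact b1

theorem st_REL (h1 : ST_GEO) (h2 : ST_DET) (h3 : ST_PARA) : ST_REL := by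
  intro m q B R κ D hB hR hD
  obtain ⟨d1, -, d3⟩ := h2
  obtain ⟨M0, hM0⟩ : ∃ M0 : ℕ, m * D * (R + 1) ≤ (M0 : ℝ) := exists_nat_ge _
  obtain ⟨c', hc'⟩ : ∃ c' : ℕ, 2 * (m * (R + 1 + D)) ≤ (2 : ℝ) ^ c' :=
    (pow_unbounded_of_one_lt (2 * (m * (R + 1 + D))) (by norm_num : (1 : ℝ) < 2)).imp fun _ h => h.le
  have hl1 : 0 ≤ Real.log (2 * (M0 : ℝ) + 3) := Real.log_nonneg (by
    have : (0 : ℝ) ≤ (M0 : ℝ) := Nat.cast_nonneg _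
    linarith)
  have hl2 : 0 ≤ Real.log (2 * ((2 * M0 + 2 : ℕ) : ℝ) + 3) := Real.log_nonneg (by
    have : (0 : ℝ) ≤ ((2 * M0 + 2 : ℕ) : ℝ) := Nat.cast_nonneg _
    linarith)
  have hl3 : 0 ≤ Real.log (2 * ((1 : ℕ) : ℝ) + 3) := Real.log_nonneg (by norm_num)
  have hl4 : 0 ≤ Real.log (2 * ((2 * M0 + 1 : ℕ) : ℝ) + 3) := Real.log_nonneg (by
    have : (0 : ℝ) ≤ ((2 * M0 + 1 : ℕ) : ℝ) := Nat.cast_nonneg _
    linarith)
  have hq0 : (0 : ℝ) ≤ (q : ℝ) := Nat.cast_nonneg _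
  have hc0 : (0 : ℝ) ≤ (c' : ℝ) := Nat.cast_nonneg _
  have hm1 := mul_nonneg hq0 hl1
  have hm2 := mul_nonneg hq0 hl2
  have hm3 := mul_nonneg hq0 hl3
  have hm4 := mul_nonneg hq0 hl4
  refine ⟨c' + q * Real.log (2 * (M0 : ℝ) + 3) + q * Real.log (2 * ((2 * M0 + 2 : ℕ) : ℝ) + 3) +
    q * Real.log (2 * ((1 : ℕ) : ℝ) + 3) + q * Real.log (2 * ((2 * M0 + 1 : ℕ) : ℝ) + 3), by linarith, ?_⟩
  intro σ C Q k K g d i l1 rep hσ hrep hki hil hlK hKn hQ hc1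
  have hc : l1 + g + d - i + c' ≤ Q := by
    have a1 : ((l1 + g + d : ℕ) : ℝ) - i + c' ≤ Q := by linarith
    have a2 : ((l1 + g + d : ℕ) : ℝ) - i = ((l1 + g + d - i : ℕ) : ℝ) := by
      rw [Nat.cast_sub (by omega)]
    rw [a2] at a1
    exact_mod_cast a1
  have hF := fun ω hω => rel_facts h1 h3 m q B R κ D C hB hR hD M0 c' hM0 hc' σ Q k K g d i l1 rep hσ hrep
    hki hil hlK hKn hQ hc ω hω
  have g4 := (h1 m q B R κ D C σ hB hR hD hσ).2.2.2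
  have hB0' : (0 : ℤ) < (B : ℤ) := by exact_mod_cast (by omega : 0 < B)
  have hBr0 : (0 : ℝ) < (B : ℝ) := by exact_mod_cast (by omega : 0 < B)
  have hBr1 : (1 : ℝ) ≤ (B : ℝ) := by exact_mod_cast (by omega : 1 ≤ B)
  have hel : σ.e l1 = (g + d) + σ.e (l1 + g + d) := by
    unfold Sy.e
    omega
  -- the conditions
  -- HR is at most the entropy given Z
  have s6 : σ.HR B rep k K g d l1 ≤ cent (σ.Pa B)
      (fun ω => cl B (σ.e (l1 + g + d)) (σ.Rd B l1 ω.1.1.1 ω.1.1.2 (σ.x1 B k K ω)))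
      (fun ω => (σ.tr B l1 ω.1.1.2, σ.tr B l1 (σ.x1 B k K ω), rep ω.1.1.1)) := by
    unfold Sy.HR
    refine cent_mono_right _ _ _ _ ?_
    intro a _ b _ e
    simp only [Prod.mk.injEq] at e ⊢
    exact ⟨e.1, e.2.1, e.2.2.2⟩
  refine ⟨?_, ?_, ?_⟩
  · -- (A)
    have s1 : cent (σ.Pa B) (fun ω => cl B (σ.e (l1 + g + d)) (σ.Rd B i ω.1.1.1 ω.1.1.2 (σ.x1 B k K ω)))
        (fun ω => ((cl B (σ.e l1) (σ.yc B i (rep ω.1.1.1) ω.1.1.2),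
          cl B (σ.e l1) (σ.Rd B i ω.1.1.1 ω.1.1.2 (σ.x1 B k K ω))),
          (σ.tr B l1 ω.1.1.2, σ.tr B l1 (σ.x1 B k K ω), rep ω.1.1.1))) ≤ σ.hr B rep k K i l1 (l1 + g + d) := by
      unfold Sy.hr
      refine cent_mono_right _ _ _ _ ?_
      intro a _ b _ e
      unfold Sy.GG
      simp only [Prod.mk.injEq] at e ⊢
      obtain ⟨⟨e1, e2⟩, e3, e4, e5⟩ := e
      refine ⟨?_, ?_, e5, e1, e2⟩
      · rw [g4 i l1 hil (by omega), e3, ← g4 i l1 hil (by omega)]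
      · rw [g4 i l1 hil (by omega), e4, ← g4 i l1 hil (by omega)]
    have s2 := cent_le_add (σ.Pa B)
      (fun ω => cl B (σ.e (l1 + g + d)) (σ.Rd B i ω.1.1.1 ω.1.1.2 (σ.x1 B k K ω)))
      (fun ω => (σ.tr B l1 ω.1.1.2, σ.tr B l1 (σ.x1 B k K ω), rep ω.1.1.1))
      (fun ω => (cl B (σ.e l1) (σ.yc B i (rep ω.1.1.1) ω.1.1.2),
          cl B (σ.e l1) (σ.Rd B i ω.1.1.1 ω.1.1.2 (σ.x1 B k K ω))))
    have s3 := cent_pair_le (σ.Pa B) (fun ω => cl B (σ.e l1) (σ.yc B i (rep ω.1.1.1) ω.1.1.2))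
      (fun ω => cl B (σ.e l1) (σ.Rd B i ω.1.1.1 ω.1.1.2 (σ.x1 B k K ω)))
      (fun ω => (σ.tr B l1 ω.1.1.2, σ.tr B l1 (σ.x1 B k K ω), rep ω.1.1.1))
    have s4 : cent (σ.Pa B) (fun ω => cl B (σ.e l1) (σ.yc B i (rep ω.1.1.1) ω.1.1.2))
        (fun ω => (σ.tr B l1 ω.1.1.2, σ.tr B l1 (σ.x1 B k K ω), rep ω.1.1.1)) ≤
        q * Real.log (2 * (M0 : ℝ) + 3) :=
      d3 (PS m q) ((Fin m → ℤ) × (Fin m → ℤ) × ℕ) q M0 (σ.Pa B)
        (fun ω => σ.yc B i (rep ω.1.1.1) ω.1.1.2)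
        (fun ω => (σ.tr B l1 ω.1.1.2, σ.tr B l1 (σ.x1 B k K ω), rep ω.1.1.1))
        (fun Z => rel_b σ B i l1 Z.2.2 Z.1) ((B : ℤ) ^ σ.e l1) (pow_pos hB0' _)
        (fun ω hω r => (hF ω hω).2.2.2 r)
    have s5 : cent (σ.Pa B) (fun ω => cl B (σ.e l1) (σ.Rd B i ω.1.1.1 ω.1.1.2 (σ.x1 B k K ω)))
        (fun ω => (σ.tr B l1 ω.1.1.2, σ.tr B l1 (σ.x1 B k K ω), rep ω.1.1.1)) ≤
        q * Real.log (2 * ((2 * M0 + 2 : ℕ) : ℝ) + 3) :=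
      d3 (PS m q) ((Fin m → ℤ) × (Fin m → ℤ) × ℕ) q (2 * M0 + 2) (σ.Pa B)
        (fun ω => σ.Rd B i ω.1.1.1 ω.1.1.2 (σ.x1 B k K ω))
        (fun ω => (σ.tr B l1 ω.1.1.2, σ.tr B l1 (σ.x1 B k K ω), rep ω.1.1.1))
        (fun Z r => rel_b σ B i l1 Z.2.2 Z.1 r - rel_b σ B i l1 Z.2.2 Z.2.1 r) ((B : ℤ) ^ σ.e l1)
        (pow_pos hB0' _) (fun ω hω r => (hF ω hω).2.2.1 r)
    have s7 := cent_change_left (σ.Pa B)
      (fun ω => cl B (σ.e (l1 + g + d)) (σ.Rd B l1 ω.1.1.1 ω.1.1.2 (σ.x1 B k K ω)))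
      (fun ω => cl B (σ.e (l1 + g + d)) (σ.Rd B i ω.1.1.1 ω.1.1.2 (σ.x1 B k K ω)))
      (fun ω => (σ.tr B l1 ω.1.1.2, σ.tr B l1 (σ.x1 B k K ω), rep ω.1.1.1))
    have s8 : cent (σ.Pa B)
        (fun ω => cl B (σ.e (l1 + g + d)) (σ.Rd B l1 ω.1.1.1 ω.1.1.2 (σ.x1 B k K ω)))
        (fun ω => (cl B (σ.e (l1 + g + d)) (σ.Rd B i ω.1.1.1 ω.1.1.2 (σ.x1 B k K ω)),
          (σ.tr B l1 ω.1.1.2, σ.tr B l1 (σ.x1 B k K ω), rep ω.1.1.1))) ≤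
        q * Real.log (2 * ((1 : ℕ) : ℝ) + 3) :=
      d1 (PS m q) ((Fin m → ℤ) × (Fin m → ℤ) × ℕ) q 1 (σ.Pa B)
        (fun ω => σ.Rd B l1 ω.1.1.1 ω.1.1.2 (σ.x1 B k K ω))
        (fun ω => σ.Rd B i ω.1.1.1 ω.1.1.2 (σ.x1 B k K ω))
        (fun ω => (σ.tr B l1 ω.1.1.2, σ.tr B l1 (σ.x1 B k K ω), rep ω.1.1.1))
        (fun Z r => rel_b σ B i l1 Z.2.2 Z.2.1 r - rel_b σ B i l1 Z.2.2 Z.1 r)
        ((B : ℤ) ^ σ.e (l1 + g + d)) (pow_pos hB0' _) (fun ω hω r => (hF ω hω).2.1 r)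
    linarith
  · -- (B)
    have s9 : cent (σ.Pa B)
        (fun ω => cl B (σ.e (l1 + g + d)) (σ.Rd B l1 ω.1.1.1 ω.1.1.2 (σ.x1 B k K ω)))
        (fun ω => (σ.tr B l1 ω.1.1.2, σ.tr B l1 (σ.x1 B k K ω), rep ω.1.1.1)) ≤
        q * Real.log (2 * (((2 * M0 + 1) * B ^ (g + d) : ℕ) : ℝ) + 3) :=
      d3 (PS m q) ((Fin m → ℤ) × (Fin m → ℤ) × ℕ) q ((2 * M0 + 1) * B ^ (g + d)) (σ.Pa B)
        (fun ω => σ.Rd B l1 ω.1.1.1 ω.1.1.2 (σ.x1 B k K ω))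
        (fun ω => (σ.tr B l1 ω.1.1.2, σ.tr B l1 (σ.x1 B k K ω), rep ω.1.1.1))
        (fun _ _ => 0) ((B : ℤ) ^ σ.e (l1 + g + d))
        (pow_pos hB0' _) (fun ω hω r => by
          have a := (hF ω hω).1 r
          rw [hel, pow_add] at a
          rw [sub_zero]
          refine a.trans (le_of_eq ?_)
          push_cast
          ring)
    have s10 : Real.log (2 * (((2 * M0 + 1) * B ^ (g + d) : ℕ) : ℝ) + 3) ≤
        ((g : ℝ) + d) * Real.log B + Real.log (2 * ((2 * M0 + 1 : ℕ) : ℝ) + 3) := by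
      have b1 : (1 : ℝ) ≤ (B : ℝ) ^ (g + d) := one_le_pow₀ hBr1
      have b2 : 2 * (((2 * M0 + 1) * B ^ (g + d) : ℕ) : ℝ) + 3 ≤
          (B : ℝ) ^ (g + d) * (2 * ((2 * M0 + 1 : ℕ) : ℝ) + 3) := by
        push_cast
        nlinarith
      have b3 : (0 : ℝ) < 2 * (((2 * M0 + 1) * B ^ (g + d) : ℕ) : ℝ) + 3 := by positivity
      have b4 := Real.log_le_log b3 b2
      rw [Real.log_mul (by positivity) (by positivity), Real.log_pow] at b4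
      push_cast at b4 ⊢
      exact b4
    have s11 := mul_le_mul_of_nonneg_left s10 hq0
    have s12 : (q : ℝ) * (((g : ℝ) + d) * Real.log B + Real.log (2 * ((2 * M0 + 1 : ℕ) : ℝ) + 3)) =
        q * ((g : ℝ) + d) * Real.log B + q * Real.log (2 * ((2 * M0 + 1 : ℕ) : ℝ) + 3) := by ring
    rw [s12] at s11
    linarith
  · -- (C)
    have s13 := rel_fiber (σ.Pa B) B (g + d) (σ.e (l1 + g + d)) hB
      (fun ω => σ.Rd B i ω.1.1.1 ω.1.1.2 (σ.x1 B k K ω)) (σ.GG B rep k K i l1) (fun z => z.2.2.2.2) (by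
        intro ω
        rw [← hel]
        rfl)
    unfold Sy.hr
    push_cast at s13
    exact s13

end Pool.Agent.Helper70.SK
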